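import Mathlib

/-!
Chordal graphs and `k`-path vertex covers.
-/

set_option autoImplicit false

namespace Pool.Agent.R709.PV

variable {V : Type}

/-- `G` is chordal: every cycle of length at least `4` has a chord, i.e. an edge of `G` between two
vertices of the cycle which is not an edge of the cycle. -/
def IsChordal (G : SimpleGraph V) : Prop :=
  ∀ (v : V) (c : G.Walk v v), c.IsCycle → 4 ≤ c.length →
    ∃ x ∈ c.support, ∃ y ∈ c.support, G.Adj x y ∧ s(x, y) ∉ c.edges

/-- `S` is a `k`-path vertex cover: every path on `k` vertices contains a vertex of `S`. -/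
def IsPathCover (G : SimpleGraph V) (k : ℕ) (S : Finset V) : Prop :=
  ∀ (u v : V) (p : G.Walk u v), p.IsPath → p.length + 1 = k → ∃ x ∈ S, x ∈ p.support

/-- The `k`-path vertex cover number: the least size of a `k`-path vertex cover. -/
noncomputable def psi (G : SimpleGraph V) (k : ℕ) : ℕ :=
  sInf {m | ∃ S : Finset V, IsPathCover G k S ∧ S.card = m}

end Pool.Agent.R709.PV
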