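import Pool.Agent.R709.PV.Defs

set_option autoImplicit false
set_option maxHeartbeats 4000000

namespace Pool.Agent.R709.PV

/-! ### Graphs with a perfect elimination ordering are chordal -/

theorem chordal_of_peo {n : ℕ} (G : SimpleGraph (Fin n))
    (h : ∀ m a b : Fin n, a < m → b < m → a ≠ b → G.Adj m a → G.Adj m b → G.Adj a b) :
    IsChordal G := by
  classical
  intro v c hc hl
  obtain ⟨m, hm, hmax⟩ := Finset.exists_max_image c.support.toFinset id
    ⟨v, by simp⟩
  simp only [List.mem_toFinset, id] at hm hmax
  set d := c.rotate m hm with hd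
  have hdc : d.IsCycle := by rw [hd, SimpleGraph.Walk.isCycle_rotate]; exact hc
  have hdl : d.length = c.length := SimpleGraph.Walk.length_rotate c m hm
  have hds : ∀ x, x ∈ d.support ↔ x ∈ c.support := fun x =>
    SimpleGraph.Walk.mem_support_rotate_iff c m hm
  have hde : ∀ e, e ∈ d.edges ↔ e ∈ c.edges := fun e =>
    (SimpleGraph.Walk.rotate_edges c m hm).perm.mem_iff
  have ha : G.Adj m (d.getVert 1) := by
    have := d.adj_getVert_succ (i := 0) (by omega)
    simpa using this
  have hb : G.Adj m (d.getVert (d.length - 1)) := by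
    have := d.adj_getVert_succ (i := d.length - 1) (by omega)
    rw [show d.length - 1 + 1 = d.length by omega, SimpleGraph.Walk.getVert_length] at this
    exact this.symm
  have hab : d.getVert 1 ≠ d.getVert (d.length - 1) := by
    intro he
    have := hdc.getVert_injOn (by simp; omega) (by simp; omega) he
    omega
  have hsup : ∀ i, d.getVert i ∈ c.support := fun i => (hds _).1 (d.getVert_mem_support i)
  have ha2 : d.getVert 1 < m := lt_of_le_of_ne (hmax _ (hsup _)) (fun he => by
    rw [he] at ha; exact G.loopless.irrefl _ ha)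
  have hb2 : d.getVert (d.length - 1) < m := lt_of_le_of_ne (hmax _ (hsup _)) (fun he => by
    rw [he] at hb; exact G.loopless.irrefl _ hb)
  refine ⟨_, hsup 1, _, hsup (d.length - 1), h m _ _ ha2 hb2 hab ha hb, ?_⟩
  rw [← hde, SimpleGraph.Walk.mk_mem_edges_iff_exists]
  rintro ⟨i, hi, he⟩
  have hm0 : d.getVert 0 = m := by simp
  rw [Sym2.eq_iff] at he
  rcases Nat.eq_zero_or_pos i with h0 | h0
  · subst h0
    rcases he with ⟨h1, -⟩ | ⟨h1, -⟩
    · rw [hm0] at h1; rw [← h1] at ha2; exact lt_irrefl _ ha2
    · rw [hm0] at h1; rw [← h1] at hb2; exact lt_irrefl _ hb2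
  · have inj := hdc.getVert_injOn
    rcases he with ⟨h1, h2⟩ | ⟨h1, h2⟩
    · have e1 := inj (by simp; omega) (by simp; omega) h1
      have e2 := inj (by simp; omega) (by simp; omega) h2
      omega
    · have e1 := inj (by simp; omega) (by simp; omega) h1
      have e2 := inj (by simp; omega) (by simp; omega) h2
      omega

/-- the clique number bound from the elimination ordering -/
theorem cliqueNum_le {n k : ℕ} (G : SimpleGraph (Fin n)) [DecidableRel G.Adj]
    (h : ∀ m : Fin n, (Finset.univ.filter fun x => x < m ∧ G.Adj m x).card ≤ k) :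
    G.cliqueNum ≤ k + 1 := by
  obtain ⟨s, hs⟩ := G.exists_isNClique_cliqueNum
  rcases s.eq_empty_or_nonempty with h0 | h0
  · rw [h0] at hs
    have := hs.card_eq
    simp at this
    omega
  · obtain ⟨m, hm, hmax⟩ := Finset.exists_max_image s id h0
    have hsub : s.erase m ⊆ Finset.univ.filter fun x => x < m ∧ G.Adj m x := by
      intro x hx
      rw [Finset.mem_erase] at hx
      rw [Finset.mem_filter]
      exact ⟨Finset.mem_univ _, lt_of_le_of_ne (hmax x hx.2) hx.1, hs.isClique hm hx.2 hx.1.symm⟩
    have h1 := Finset.card_le_card hsub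
    rw [Finset.card_erase_of_mem hm, hs.card_eq] at h1
    have := h m
    omega

/-! ### The example -/

/-- for `v ≥ 2` the two neighbours of `v` which are smaller than `v` -/
def back : List (List (Fin 17)) :=
  [[], [0], [0, 1], [1, 2], [0, 1], [0, 4], [2, 3], [4, 5], [3, 6], [6, 8], [1, 4], [3, 8], [8, 9],
   [4, 10], [8, 9], [4, 5], [9, 12]]

def adjB (i j : Fin 17) : Bool :=
  (back.getD i.val []).contains j || (back.getD j.val []).contains i

/-- the example: a 2-tree on 17 vertices -/
def G17 : SimpleGraph (Fin 17) where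
  Adj i j := adjB i j = true
  symm := ⟨by decide +kernel⟩
  loopless := ⟨by decide +kernel⟩

instance : DecidableRel G17.Adj := fun i j => inferInstanceAs (Decidable (adjB i j = true))

theorem chordal17 : IsChordal G17 := by
  apply chordal_of_peo
  have h : ∀ m a b : Fin 17, a < m → b < m → a ≠ b → adjB m a = true → adjB m b = true →
    adjB a b = true := by decide +kernel
  exact h

theorem cliqueNum17 : G17.cliqueNum = 3 := by
  apply le_antisymm
  · apply cliqueNum_le
    decide +kernel
  · have h : G17.IsClique (({0, 1, 2} : Finset (Fin 17)) : Set (Fin 17)) := by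
      intro x hx y hy hxy
      simp only [Finset.coe_insert, Finset.coe_singleton, Set.mem_insert_iff,
        Set.mem_singleton_iff] at hx hy
      rcases hx with rfl | rfl | rfl <;> rcases hy with rfl | rfl | rfl <;>
        first | exact absurd rfl hxy | (show adjB _ _ = true; decide +kernel)
    have := SimpleGraph.IsClique.card_le_cliqueNum (tc := h)
    have h3 : ({0, 1, 2} : Finset (Fin 17)).card = 3 := by decide
    omega

/-- 25 paths on 6 vertices -/
def paths : List (List (Fin 17)) :=
  [[0, 2, 3, 8, 9, 12], [7, 5, 0, 1, 10, 13], [4, 0, 2, 6, 9, 16], [9, 6, 2, 0, 5, 15],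
   [0, 1, 10, 4, 5, 15], [3, 11, 8, 6, 9, 16], [7, 5, 15, 4, 10, 13], [11, 8, 12, 16, 9, 14],
   [11, 3, 6, 9, 12, 16], [7, 4, 1, 2, 3, 11], [6, 8, 12, 16, 9, 14], [11, 3, 2, 0, 5, 15],
   [2, 1, 4, 7, 5, 15], [3, 11, 8, 12, 9, 14], [0, 4, 1, 2, 3, 8], [9, 6, 2, 1, 10, 13],
   [0, 1, 10, 13, 4, 7], [4, 0, 2, 6, 8, 11], [7, 5, 0, 2, 6, 8], [10, 1, 2, 6, 8, 12],
   [1, 0, 5, 7, 4, 13], [6, 3, 11, 8, 12, 16], [10, 1, 3, 8, 12, 16], [11, 3, 2, 1, 10, 13],
   [3, 2, 0, 4, 10, 13]]

/-- boolean chain condition -/
def chainB : List (Fin 17) → Bool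
  | [] => true
  | [_] => true
  | a :: b :: l => adjB a b && chainB (b :: l)

/-- boolean duplicate freeness -/
def nodupB : List (Fin 17) → Bool
  | [] => true
  | a :: l => !l.contains a && nodupB l

theorem exists_walk : ∀ (l : List (Fin 17)) (u : Fin 17), chainB (u :: l) = true →
    ∃ (v : Fin 17) (p : G17.Walk u v), p.support = u :: l := by
  intro l
  induction l with
  | nil => intro u _; exact ⟨u, SimpleGraph.Walk.nil, rfl⟩
  | cons x l ih =>
    intro u h
    rw [chainB, Bool.and_eq_true] at h
    obtain ⟨v, p, hp⟩ := ih x h.2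
    have hux : G17.Adj u x := h.1
    exact ⟨v, SimpleGraph.Walk.cons hux p, by simp [hp]⟩

theorem nodup_of : ∀ l : List (Fin 17), nodupB l = true → l.Nodup := by
  intro l
  induction l with
  | nil => intro _; exact List.nodup_nil
  | cons x l ih =>
    intro h
    rw [nodupB, Bool.and_eq_true, Bool.not_eq_true'] at h
    rw [List.nodup_cons]
    refine ⟨fun hx => ?_, ih h.2⟩
    have : l.contains x = true := by rw [List.contains_iff_mem]; exact hx
    rw [this] at h
    exact absurd h.1 (by simp)

theorem paths_ok : ∀ l ∈ paths, chainB l = true ∧ nodupB l = true ∧ l.length = 6 := by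
  decide +kernel

/-- a cover meets every path of the list -/
theorem cover_meets {S : Finset (Fin 17)} (hS : IsPathCover G17 6 S) (l : List (Fin 17))
    (hl : l ∈ paths) : ∃ x ∈ S, x ∈ l := by
  obtain ⟨h1, h2, h3⟩ := paths_ok l hl
  cases l with
  | nil => simp at h3
  | cons u l =>
    obtain ⟨v, p, hp⟩ := exists_walk l u h1
    have hpath : p.IsPath := by
      rw [SimpleGraph.Walk.isPath_def, hp]
      exact nodup_of _ h2
    have hlen : p.length + 1 = 6 := by
      rw [← SimpleGraph.Walk.length_support, hp, h3]
    obtain ⟨x, hx, hxp⟩ := hS u v p hpath hlen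
    rw [hp] at hxp
    exact ⟨x, hx, hxp⟩

/-- branching: `br f D = true` means that no set extending `D` by at most `f` elements meets all
paths -/
def br : ℕ → List (Fin 17) → Bool
  | 0, D => (paths.find? fun p => p.all fun x => !D.contains x).isSome
  | f + 1, D => match paths.find? fun p => p.all fun x => !D.contains x with
    | none => false
    | some p => p.all fun x => br f (x :: D)

theorem br_spec (S : Finset (Fin 17)) (hS : ∀ l ∈ paths, ∃ x ∈ S, x ∈ l) :
    ∀ (f : ℕ) (D : List (Fin 17)), (∀ x ∈ D, x ∈ S) → br f D = true →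
      f + D.toFinset.card < S.card := by
  intro f
  induction f with
  | zero =>
    intro D hD h
    rw [br, List.find?_isSome] at h
    obtain ⟨p, hp, hpD⟩ := h
    rw [List.all_eq_true] at hpD
    obtain ⟨x, hxS, hxp⟩ := hS p hp
    have hxD : x ∉ D := by
      intro hx
      have h1 := hpD x hxp
      have h2 : D.contains x = true := by rw [List.contains_iff_mem]; exact hx
      rw [h2] at h1
      simp at h1
    rw [zero_add]
    apply Finset.card_lt_card
    rw [Finset.ssubset_iff_of_subset (fun y hy => hD y (List.mem_toFinset.1 hy))]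
    exact ⟨x, hxS, fun h => hxD (List.mem_toFinset.1 h)⟩
  | succ f ih =>
    intro D hD h
    rw [br] at h
    split at h
    · exact absurd h (by simp)
    · rename_i p hfind
      have hp := List.mem_of_find?_eq_some hfind
      have hpD := List.find?_some hfind
      simp only [List.all_eq_true] at hpD h
      obtain ⟨x, hxS, hxp⟩ := hS p hp
      have hxD : x ∉ D := by
        intro hx
        have h1 := hpD x hxp
        have h2 : D.contains x = true := by rw [List.contains_iff_mem]; exact hx
        rw [h2] at h1
        simp at h1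
      have h3 := ih (x :: D) (by
        intro y hy
        rcases List.mem_cons.1 hy with rfl | hy
        · exact hxS
        · exact hD y hy) (h x hxp)
      rw [List.toFinset_cons, Finset.card_insert_of_notMem (by rwa [List.mem_toFinset])] at h3
      omega

theorem br4 : br 4 [] = true := by decide +kernel

theorem psi_ge : 5 ≤ psi G17 6 := by
  apply le_csInf
  · refine ⟨_, Finset.univ, ?_, rfl⟩
    intro u v p _ _
    exact ⟨u, Finset.mem_univ _, p.start_mem_support⟩
  · rintro m ⟨S, hS, rfl⟩
    have h := br_spec S (fun l hl => cover_meets hS l hl) 4 [] (by simp) br4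
    simp at h
    omega

end Pool.Agent.R709.PV
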